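import Pool.Agent.Y391.SL.Conc
import Pool.Agent.Helper452.SlabMain

/-!
Dimension free stability for the slabs of the cube of half-width `t < 2√2 - 2`.
-/

set_option autoImplicit false

namespace Pool.Agent.Y391.SL

open MeasureTheory Set Filter Topology Pool.Agent.Helper452

/-! ### Moments -/

theorem cubeAvg_const {n : ℕ} (a : Fin n → ℝ) (c r : ℝ) : cubeAvg a (fun _ => c) r = c := by
  induction n with
  | zero => rw [cubeAvg_zero]
  | succ n ih =>
    rw [cubeAvg_succ 0 a continuous_const]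
    have : Aop (a 0) (fun _ : ℝ => c) = fun _ => c := by
      ext x
      unfold Aop
      simp
      ring
    rw [this]
    exact ih _

theorem Aop_const (a c r : ℝ) : Aop a (fun _ => c) r = c := by
  unfold Aop
  simp
  ring

theorem Aop_two (a r : ℝ) : Aop a (fun x => x ^ 2) r = r ^ 2 + a ^ 2 / 3 := by
  unfold Aop
  have : ∀ u : ℝ, (r + a * u) ^ 2 = r ^ 2 + 2 * r * a * u + a ^ 2 * u ^ 2 := by
    intro u; ring
  simp_rw [this]
  rw [intervalIntegral.integral_add, intervalIntegral.integral_add,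
    intervalIntegral.integral_const_mul, intervalIntegral.integral_const_mul, integral_pow,
    integral_id]
  · simp
    ring
  all_goals (apply Continuous.intervalIntegrable; fun_prop)

theorem Aop_four (a r : ℝ) :
    Aop a (fun x => x ^ 4) r = r ^ 4 + 2 * a ^ 2 * r ^ 2 + a ^ 4 / 5 := by
  unfold Aop
  have : ∀ u : ℝ, (r + a * u) ^ 4 = r ^ 4 + 4 * r ^ 3 * a * u ^ 1 + 6 * r ^ 2 * a ^ 2 * u ^ 2 +
      4 * r * a ^ 3 * u ^ 3 + a ^ 4 * u ^ 4 := by
    intro u; ring
  simp_rw [this]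
  rw [intervalIntegral.integral_add, intervalIntegral.integral_add,
    intervalIntegral.integral_add, intervalIntegral.integral_add,
    intervalIntegral.integral_const_mul, intervalIntegral.integral_const_mul,
    intervalIntegral.integral_const_mul, intervalIntegral.integral_const_mul, integral_pow,
    integral_pow, integral_pow, integral_pow]
  · simp
    ring
  all_goals (apply Continuous.intervalIntegrable; fun_prop)

theorem Aop_six (a r : ℝ) : Aop a (fun x => x ^ 6) r =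
    r ^ 6 + 5 * a ^ 2 * r ^ 4 + 3 * a ^ 4 * r ^ 2 + a ^ 6 / 7 := by
  unfold Aop
  have : ∀ u : ℝ, (r + a * u) ^ 6 = r ^ 6 + 6 * r ^ 5 * a * u ^ 1 + 15 * r ^ 4 * a ^ 2 * u ^ 2 +
      20 * r ^ 3 * a ^ 3 * u ^ 3 + 15 * r ^ 2 * a ^ 4 * u ^ 4 + 6 * r * a ^ 5 * u ^ 5 +
      a ^ 6 * u ^ 6 := by
    intro u; ring
  simp_rw [this]
  rw [intervalIntegral.integral_add, intervalIntegral.integral_add,
    intervalIntegral.integral_add, intervalIntegral.integral_add,
    intervalIntegral.integral_add, intervalIntegral.integral_add,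
    intervalIntegral.integral_const_mul, intervalIntegral.integral_const_mul,
    intervalIntegral.integral_const_mul, intervalIntegral.integral_const_mul,
    intervalIntegral.integral_const_mul, intervalIntegral.integral_const_mul, integral_pow,
    integral_pow, integral_pow, integral_pow, integral_pow, integral_pow]
  · simp
    ring
  all_goals (apply Continuous.intervalIntegrable; fun_prop)

theorem cubeAvg_two {n : ℕ} (a : Fin n → ℝ) (r : ℝ) :
    cubeAvg a (fun x => x ^ 2) r = r ^ 2 + (∑ i, a i ^ 2) / 3 := by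
  induction n with
  | zero => rw [cubeAvg_zero]; simp
  | succ n ih =>
    rw [cubeAvg_succ 0 a (by fun_prop)]
    have : Aop (a 0) (fun x => x ^ 2) = fun x => x ^ 2 + (a 0) ^ 2 / 3 := by
      ext x; exact Aop_two _ _
    rw [this, cubeAvg_add _ (by fun_prop) (by fun_prop), ih, cubeAvg_const, Fin.sum_univ_succ]
    simp only [Fin.succAbove_zero]
    ring

theorem cubeAvg_four {n : ℕ} (a : Fin n → ℝ) (r : ℝ) :
    cubeAvg a (fun x => x ^ 4) r = r ^ 4 + 2 * (∑ i, a i ^ 2) * r ^ 2 +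
      ((∑ i, a i ^ 2) ^ 2 / 3 - 2 / 15 * ∑ i, a i ^ 4) := by
  induction n with
  | zero => rw [cubeAvg_zero]; simp
  | succ n ih =>
    rw [cubeAvg_succ 0 a (by fun_prop)]
    have : Aop (a 0) (fun x => x ^ 4) = fun x => x ^ 4 + (2 * a 0 ^ 2) * x ^ 2 + a 0 ^ 4 / 5 := by
      ext x; exact Aop_four _ _
    rw [this, cubeAvg_add _ (by fun_prop) (by fun_prop), cubeAvg_add _ (by fun_prop) (by fun_prop),
      ih, cubeAvg_const_mul, cubeAvg_two, cubeAvg_const, Fin.sum_univ_succ, Fin.sum_univ_succ]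
    simp only [Fin.succAbove_zero]
    ring

theorem cubeAvg_six {n : ℕ} (a : Fin n → ℝ) (r : ℝ) :
    cubeAvg a (fun x => x ^ 6) r = r ^ 6 + 5 * (∑ i, a i ^ 2) * r ^ 4 +
      15 * ((∑ i, a i ^ 2) ^ 2 / 3 - 2 / 15 * ∑ i, a i ^ 4) * r ^ 2 +
      (5 / 9 * (∑ i, a i ^ 2) ^ 3 - 2 / 3 * (∑ i, a i ^ 2) * (∑ i, a i ^ 4) +
        16 / 63 * ∑ i, a i ^ 6) := by
  induction n with
  | zero => rw [cubeAvg_zero]; simp
  | succ n ih =>
    rw [cubeAvg_succ 0 a (by fun_prop)]
    have : Aop (a 0) (fun x => x ^ 6) = fun x => x ^ 6 + (5 * a 0 ^ 2) * x ^ 4 +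
        (3 * a 0 ^ 4) * x ^ 2 + a 0 ^ 6 / 7 := by
      ext x; exact Aop_six _ _
    rw [this, cubeAvg_add _ (by fun_prop) (by fun_prop), cubeAvg_add _ (by fun_prop) (by fun_prop),
      cubeAvg_add _ (by fun_prop) (by fun_prop),
      ih, cubeAvg_const_mul, cubeAvg_const_mul, cubeAvg_two, cubeAvg_four, cubeAvg_const,
      Fin.sum_univ_succ, Fin.sum_univ_succ, Fin.sum_univ_succ]
    simp only [Fin.succAbove_zero]
    ring

theorem cubeAvg_mono {n : ℕ} (a : Fin n → ℝ) {f g : ℝ → ℝ} (hf : Continuous f) (hg : Continuous g)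
    (h : ∀ x, f x ≤ g x) (r : ℝ) : cubeAvg a f r ≤ cubeAvg a g r := by
  unfold cubeAvg
  apply mul_le_mul_of_nonneg_left _ (by positivity)
  apply MeasureTheory.integral_mono
  · exact integrableOn_cube (by fun_prop)
  · exact integrableOn_cube (by fun_prop)
  · exact fun x => h _

/-! ### Upper bounds for all slabs -/

theorem v_bound {n : ℕ} (a : Fin n → ℝ) (hs : ∑ i, a i ^ 2 = 1) {t : ℝ} (ht0 : 0 < t) (ht : t < T)
    {ε : ℝ} (hε : v a t = 2 ^ n * (t * (1 + ε))) {s : ℝ} (hs0 : 0 ≤ s) (hs1 : s ≤ 1) :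
    v a s ≤ 2 ^ n * (s + ε * (T / (T - t))) := by
  have hT1 := T_gt
  have hT2 := T_lt
  have hp : (0 : ℝ) < 2 ^ n := by positivity
  have hd : 0 < T - t := sub_pos.2 ht
  have hge : 2 ^ n * t ≤ v a t := slab_volume_ge a hs t ht0 ht.le
  have hε0 : 0 ≤ ε := by
    rw [hε] at hge
    have h1 := le_of_mul_le_mul_left hge hp
    by_contra hc
    push Not at hc
    nlinarith
  have hK : 1 ≤ T / (T - t) := by
    rw [le_div_iff₀ hd]
    linarith
  rcases le_total t s with h | h
  · have c := conc a (le_refl (0 : ℝ)) ht0.le h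
    rw [hε] at c
    have c0 := mul_nonneg (sub_nonneg.2 h) (v_nonneg a 0)
    have c1 : t * v a s ≤ t * (2 ^ n * (s * (1 + ε))) := by linarith
    have c2 := le_of_mul_le_mul_left c1 ht0
    refine c2.trans (mul_le_mul_of_nonneg_left ?_ hp.le)
    have e1 : s * ε ≤ ε * (T / (T - t)) := by
      calc s * ε ≤ 1 * ε := mul_le_mul_of_nonneg_right hs1 hε0
        _ = ε * 1 := by ring
        _ ≤ _ := mul_le_mul_of_nonneg_left hK hε0
    linarith
  · have c := conc a hs0 h ht.le
    rw [hε] at c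
    have c0 := mul_le_mul_of_nonneg_left (slab_volume_ge a hs T (by linarith) le_rfl)
      (sub_nonneg.2 h)
    have c1 : (t - s) * (2 ^ n * T) ≤ (t - s) * v a T := c0
    have c2 : (T - t) * v a s ≤ (T - t) * (2 ^ n * (s + ε * (T / (T - t)))) := by
      have e1 : (T - t) * (2 ^ n * (s + ε * (T / (T - t)))) =
          2 ^ n * (s * (T - t) + ε * T) := by
        field_simp
      rw [e1]
      have e2 : (T - s) * t * ε ≤ ε * T := by
        have e3 : (T - s) * t ≤ T * 1 :=
          mul_le_mul (by linarith) (by linarith) ht0.le (by linarith)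
        have := mul_le_mul_of_nonneg_right e3 hε0
        linarith
      have e4 := mul_le_mul_of_nonneg_left e2 hp.le
      linarith
    exact le_of_mul_le_mul_left c2 hd

/-! ### The excess -/

/-- the excess function -/
noncomputable def psi (x : ℝ) : ℝ := max (x ^ 2 - 1) 0

theorem psi_cont : Continuous psi := by
  unfold psi
  fun_prop

theorem psi_nonneg (x : ℝ) : 0 ≤ psi x := le_max_right _ _

theorem psi_eq (x : ℝ) : psi x = x ^ 2 - 1 + max (1 - x ^ 2) 0 := by
  unfold psi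
  rcases le_total (x ^ 2) 1 with h | h
  · rw [max_eq_right (by linarith), max_eq_left (by linarith)]
    ring
  · rw [max_eq_left (by linarith), max_eq_right (by linarith)]
    ring

theorem psi_sq (x : ℝ) : psi x ^ 2 = x ^ 4 - 2 * x ^ 2 + 1 - max (1 - x ^ 2) 0 ^ 2 := by
  unfold psi
  rcases le_total (x ^ 2) 1 with h | h
  · rw [max_eq_right (by linarith), max_eq_left (by linarith)]
    ring
  · rw [max_eq_left (by linarith), max_eq_right (by linarith)]
    ring

theorem psi_le (x : ℝ) : psi x ^ 2 ≤ 5 * psi x + 1 / 20 * x ^ 6 := by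
  have h0 := psi_nonneg x
  have h1 : psi x ^ 3 ≤ x ^ 6 := by
    unfold psi
    rcases le_total (x ^ 2) 1 with h | h
    · rw [max_eq_right (by linarith), zero_pow (by norm_num)]
      positivity
    · rw [max_eq_left (by linarith)]
      have : x ^ 6 = (x ^ 2) ^ 3 := by ring
      rw [this]
      exact pow_le_pow_left₀ (by linarith) (by linarith) 3
  nlinarith [mul_nonneg h0 (sq_nonneg (psi x - 10))]

theorem excess_le {n : ℕ} (a : Fin n → ℝ) (hs : ∑ i, a i ^ 2 = 1) {c : ℝ}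
    (hv : ∀ s ∈ Icc (0 : ℝ) 1, v a s ≤ 2 ^ n * (s + c)) : cubeAvg a psi 0 ≤ c := by
  have h1 := phi1_le a hv
  have h2 : cubeAvg a psi 0 = cubeAvg a (fun x => x ^ 2 - 1 + max (1 - x ^ 2) 0) 0 := by
    congr 1
    ext x
    exact psi_eq x
  rw [h2, cubeAvg_add a (by fun_prop) (by fun_prop), cubeAvg_sub a (by fun_prop) (by fun_prop),
    cubeAvg_two, cubeAvg_const, hs]
  linarith

theorem far {n : ℕ} (a : Fin n → ℝ) (hs : ∑ i, a i ^ 2 = 1) {α : ℝ} (hα : ∀ i, |a i| ≤ α)
    (hα0 : 0 ≤ α) (hα1 : α ≤ 3 / 4) {c : ℝ}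
    (hv : ∀ s ∈ Icc (0 : ℝ) 1, v a s ≤ 2 ^ n * (s + c)) : (1 - α) / 60 ≤ c := by
  have h1 := excess_le a hs hv
  have h2 := phi2_le a hv
  have c1 := psi_cont
  have h3 : cubeAvg a (fun x => psi x ^ 2) 0 =
      cubeAvg a (fun x => x ^ 4 - 2 * x ^ 2 + 1 - max (1 - x ^ 2) 0 ^ 2) 0 := by
    congr 1
    ext x
    exact psi_sq x
  rw [cubeAvg_sub a (by fun_prop) (by fun_prop), cubeAvg_add a (by fun_prop) (by fun_prop),
    cubeAvg_sub a (by fun_prop) (by fun_prop), cubeAvg_const_mul, cubeAvg_const, cubeAvg_two,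
    cubeAvg_four, hs] at h3
  have h4 := cubeAvg_mono a (f := fun x => psi x ^ 2) (g := fun x => 5 * psi x + 1 / 20 * x ^ 6)
    (by fun_prop) (by fun_prop) psi_le 0
  rw [h3, cubeAvg_add a (by fun_prop) (by fun_prop), cubeAvg_const_mul, cubeAvg_const_mul,
    cubeAvg_six, hs] at h4
  have h5 : ∑ i, a i ^ 4 ≤ α ^ 2 := by
    have : ∑ i, a i ^ 4 ≤ ∑ i, α ^ 2 * a i ^ 2 := by
      refine Finset.sum_le_sum fun i _ => ?_
      have e : a i ^ 4 = a i ^ 2 * a i ^ 2 := by ring
      rw [e]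
      refine mul_le_mul_of_nonneg_right ?_ (sq_nonneg _)
      rw [← sq_abs]
      exact pow_le_pow_left₀ (abs_nonneg _) (hα i) 2
    rw [← Finset.mul_sum, hs, mul_one] at this
    exact this
  have h6 : ∑ i, a i ^ 6 ≤ ∑ i, a i ^ 4 := by
    refine Finset.sum_le_sum fun i _ => ?_
    have e : a i ^ 6 = a i ^ 4 * a i ^ 2 := by ring
    rw [e]
    have e2 : a i ^ 2 ≤ 1 := by
      rw [← sq_abs]
      exact pow_le_one₀ (abs_nonneg _) ((hα i).trans (by linarith))
    have e3 : 0 ≤ a i ^ 4 := by positivity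
    nlinarith
  have h7 : 0 ≤ ∑ i, a i ^ 4 := Finset.sum_nonneg fun i _ => by positivity
  have h8 : α ^ 2 ≤ 3 / 4 * α := by nlinarith
  norm_num at h4
  linarith

theorem psi_neg (x : ℝ) : psi (-x) = psi x := by
  unfold psi
  rw [neg_sq]

theorem Aop_psi_neg (a y : ℝ) : Aop a psi (-y) = Aop a psi y := by
  rw [← Aop_neg a psi y]
  unfold Aop
  congr 2
  ext u
  rw [← psi_neg]
  congr 1
  ring

theorem Aop_psi_nonneg (a y : ℝ) : 0 ≤ Aop a psi y := by
  unfold Aop
  apply mul_nonneg (by norm_num)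
  apply intervalIntegral.integral_nonneg (by norm_num)
  exact fun u _ => psi_nonneg _

theorem prim (p q : ℝ) : ∫ z in p..q, (z ^ 2 - 1) = (q ^ 3 / 3 - q) - (p ^ 3 / 3 - p) := by
  rw [intervalIntegral.integral_sub, integral_pow]
  · simp
    ring
  all_goals (apply Continuous.intervalIntegrable; fun_prop)

theorem near0 {α y : ℝ} (h1 : 3 / 4 ≤ α) (h2 : α ≤ 1) (hy : 0 ≤ y) :
    y ^ 2 / 4 - (1 - α) ^ 2 / 2 ≤ Aop α psi y := by
  have hα : 0 < α := by linarith
  have hi : ∀ p q : ℝ, IntervalIntegrable psi volume p q := fun p q =>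
    psi_cont.intervalIntegrable p q
  rcases le_total y (1 - α) with h | h
  · refine le_trans ?_ (Aop_psi_nonneg α y)
    nlinarith
  rw [Aop_eq_of_ne α hα.ne']
  rcases le_total (y - α) 1 with g | g
  · have e1 : ∫ z in (y - α)..(y + α), psi z =
        (∫ z in (y - α)..1, psi z) + ∫ z in (1 : ℝ)..(y + α), psi z :=
      (intervalIntegral.integral_add_adjacent_intervals (hi _ _) (hi _ _)).symm
    have e2 : 0 ≤ ∫ z in (y - α)..1, psi z :=
      intervalIntegral.integral_nonneg g fun u _ => psi_nonneg u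
    have e3 : ∫ z in (1 : ℝ)..(y + α), (z ^ 2 - 1) ≤ ∫ z in (1 : ℝ)..(y + α), psi z := by
      apply intervalIntegral.integral_mono_on (by linarith)
      · exact (by fun_prop : Continuous fun z : ℝ => z ^ 2 - 1).intervalIntegrable _ _
      · exact hi _ _
      · exact fun z _ => le_max_left _ _
    rw [prim] at e3
    have e4 : (y - (1 - α)) ^ 2 ≤ ∫ z in (y - α)..(y + α), psi z := by
      rw [e1]
      have h3 : 0 ≤ y - (1 - α) := by linarith
      have h4 : 0 ≤ (y - (1 - α)) ^ 3 := by positivity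
      nlinarith
    have e5 : 1 / 2 * (y - (1 - α)) ^ 2 ≤ 1 / (2 * α) * ∫ z in (y - α)..(y + α), psi z := by
      refine mul_le_mul ?_ e4 (sq_nonneg _) (by positivity)
      rw [div_le_div_iff₀ (by norm_num) (by positivity)]
      linarith
    refine le_trans ?_ e5
    nlinarith [sq_nonneg (y - 2 * (1 - α))]
  · have e3 : ∫ z in (y - α)..(y + α), (z ^ 2 - 1) ≤ ∫ z in (y - α)..(y + α), psi z := by
      apply intervalIntegral.integral_mono_on (by linarith)
      · exact (by fun_prop : Continuous fun z : ℝ => z ^ 2 - 1).intervalIntegrable _ _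
      · exact hi _ _
      · exact fun z _ => le_max_left _ _
    rw [prim] at e3
    have e4 : 2 * α * (y ^ 2 - 1) ≤ ∫ z in (y - α)..(y + α), psi z := by
      refine le_trans ?_ e3
      have h3 : 0 ≤ α ^ 3 := by positivity
      nlinarith
    have e5 : 1 / (2 * α) * (2 * α * (y ^ 2 - 1)) ≤
        1 / (2 * α) * ∫ z in (y - α)..(y + α), psi z :=
      mul_le_mul_of_nonneg_left e4 (by positivity)
    refine le_trans ?_ e5
    have e6 : 1 / (2 * α) * (2 * α * (y ^ 2 - 1)) = y ^ 2 - 1 := by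
      field_simp
    rw [e6]
    nlinarith

theorem near1 {α : ℝ} (h1 : 3 / 4 ≤ α) (h2 : α ≤ 1) (y : ℝ) :
    1 / 4 * y ^ 2 - (1 - α) ^ 2 / 2 ≤ Aop α psi y := by
  rcases le_total 0 y with h | h
  · have := near0 h1 h2 h
    linarith
  · have := near0 h1 h2 (y := -y) (by linarith)
    rw [Aop_psi_neg, neg_sq] at this
    linarith

theorem near {n : ℕ} (a : Fin (n + 1) → ℝ) (p : Fin (n + 1)) (hs : ∑ i, a i ^ 2 = 1)
    (h1 : 3 / 4 ≤ |a p|) : (1 - |a p|) / 48 ≤ cubeAvg a psi 0 := by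
  have h2 : |a p| ≤ 1 := by
    have e := Finset.single_le_sum (f := fun i => a i ^ 2) (fun i _ => sq_nonneg _)
      (Finset.mem_univ p)
    rw [hs] at e
    have : a p ^ 2 ≤ 1 := e
    exact (sq_le_one_iff_abs_le_one _).1 this
  rw [cubeAvg_succ p a psi_cont, ← Aop_abs]
  have h3 := cubeAvg_mono (fun j => a (p.succAbove j))
    (f := fun y => 1 / 4 * y ^ 2 - (1 - |a p|) ^ 2 / 2) (g := Aop |a p| psi) (by fun_prop)
    (Aop_continuous _ psi_cont) (near1 h1 h2) 0
  rw [cubeAvg_sub _ (by fun_prop) (by fun_prop), cubeAvg_const_mul, cubeAvg_const,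
    cubeAvg_two] at h3
  have h4 : ∑ j, a (p.succAbove j) ^ 2 = 1 - |a p| ^ 2 := by
    rw [Fin.sum_univ_succAbove _ p] at hs
    rw [sq_abs]
    linarith
  rw [h4] at h3
  refine le_trans ?_ h3
  have e : 1 / 4 * (0 ^ 2 + (1 - |a p| ^ 2) / 3) - (1 - |a p|) ^ 2 / 2 - (1 - |a p|) / 48 =
      (1 - |a p|) * ((28 * (|a p| - 3 / 4)) / 48) := by ring
  have e2 : 0 ≤ (1 - |a p|) * ((28 * (|a p| - 3 / 4)) / 48) :=
    mul_nonneg (by linarith) (by
      apply div_nonneg _ (by norm_num)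
      linarith)
  linarith

/-- Stability. -/
theorem stab {n : ℕ} (a : Fin n → ℝ) (hs : ∑ i, a i ^ 2 = 1) {t : ℝ} (ht0 : 0 < t) (ht : t ≤ T)
    {α : ℝ} (hα : ∀ i, |a i| ≤ α) (hα1 : α ≤ 1) :
    2 ^ n * t * (1 + (1 - t / T) * (1 - α) / 60) ≤ v a t := by
  have hT1 := T_gt
  have hT2 := T_lt
  have hT0 : 0 < T := by linarith
  rcases ht.eq_or_lt with h | h
  · subst h
    rw [div_self hT0.ne', sub_self, zero_mul, zero_div, add_zero, mul_one]
    exact slab_volume_ge a hs T hT0 le_rfl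
  have hp : (0 : ℝ) < 2 ^ n := by positivity
  obtain ⟨ε, hε⟩ : ∃ ε : ℝ, v a t = 2 ^ n * (t * (1 + ε)) :=
    ⟨v a t / (2 ^ n * t) - 1, by field_simp; ring⟩
  have hv : ∀ s ∈ Icc (0 : ℝ) 1, v a s ≤ 2 ^ n * (s + ε * (T / (T - t))) :=
    fun s hs' => v_bound a hs ht0 h hε hs'.1 hs'.2
  have key : (1 - α) / 60 ≤ ε * (T / (T - t)) := by
    rcases n with _ | n
    · simp at hs
    obtain ⟨p, hp'⟩ := Finite.exists_max (fun i => |a i|)
    have hpα : |a p| ≤ α := hα p
    rcases le_total |a p| (3 / 4) with g | g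
    · have := far a hs hp' (abs_nonneg _) g hv
      linarith
    · have := near a p hs g
      have h2 := excess_le a hs hv
      linarith
  have hd : 0 < T - t := sub_pos.2 h
  have k2 : (1 - t / T) * (1 - α) / 60 ≤ ε := by
    have e1 : (1 - t / T) * (ε * (T / (T - t))) = ε := by
      field_simp
    have e2 : 0 ≤ 1 - t / T := by
      rw [sub_nonneg, div_le_one hT0]
      exact ht
    have := mul_le_mul_of_nonneg_left key e2
    rw [e1] at this
    linarith
  rw [hε]
  have : t * (1 + (1 - t / T) * (1 - α) / 60) ≤ t * (1 + ε) :=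
    mul_le_mul_of_nonneg_left (by linarith) ht0.le
  have := mul_le_mul_of_nonneg_left this hp.le
  linarith

/-- Stability with the excess. -/
theorem stab2 {n : ℕ} (a : Fin n → ℝ) (hs : ∑ i, a i ^ 2 = 1) {t : ℝ} (ht0 : 0 < t) (ht : t ≤ T) :
    2 ^ n * t + t * (1 - t / T) * ∫ x in cube n, max ((∑ i, a i * x i) ^ 2 - 1) 0 ≤ v a t := by
  have hT1 := T_gt
  have hT2 := T_lt
  have hT0 : 0 < T := by linarith
  rcases ht.eq_or_lt with h | h
  · subst h
    rw [div_self hT0.ne', sub_self, mul_zero, zero_mul, add_zero]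
    exact slab_volume_ge a hs T hT0 le_rfl
  have hp : (0 : ℝ) < 2 ^ n := by positivity
  obtain ⟨ε, hε⟩ : ∃ ε : ℝ, v a t = 2 ^ n * (t * (1 + ε)) :=
    ⟨v a t / (2 ^ n * t) - 1, by field_simp; ring⟩
  have hv : ∀ s ∈ Icc (0 : ℝ) 1, v a s ≤ 2 ^ n * (s + ε * (T / (T - t))) :=
    fun s hs' => v_bound a hs ht0 h hε hs'.1 hs'.2
  have key := excess_le a hs hv
  have e : (2 : ℝ) ^ n * cubeAvg a psi 0 = ∫ x in cube n, max ((∑ i, a i * x i) ^ 2 - 1) 0 := by
    unfold cubeAvg psi
    simp only [zero_add]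
    field_simp
  rw [← e, hε]
  have hd : 0 < T - t := sub_pos.2 h
  have k2 : (1 - t / T) * cubeAvg a psi 0 ≤ ε := by
    have e1 : (1 - t / T) * (ε * (T / (T - t))) = ε := by
      field_simp
    have e2 : 0 ≤ 1 - t / T := by
      rw [sub_nonneg, div_le_one hT0]
      exact ht
    have := mul_le_mul_of_nonneg_left key e2
    rw [e1] at this
    exact this
  have k3 := mul_le_mul_of_nonneg_left k2 (mul_nonneg hp.le ht0.le)
  linarith

end Pool.Agent.Y391.SL
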