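import Pool.Agent.Helper452.SlabVol

/-!
The volume of the slabs of the cube is a concave function of the half-width (elementary proof with
averages of odd functions), and the layer cake formula.
-/

set_option autoImplicit false

namespace Pool.Agent.Y391.SL

open MeasureTheory Set Filter Topology Pool.Agent.Helper452

/-- real volume of the slab -/
noncomputable def v {n : ℕ} (a : Fin n → ℝ) (t : ℝ) : ℝ := (volume (slab a t)).toReal

theorem v_nonneg {n : ℕ} (a : Fin n → ℝ) (t : ℝ) : 0 ≤ v a t := ENNReal.toReal_nonneg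

theorem slab_mono {n : ℕ} (a : Fin n → ℝ) {s t : ℝ} (h : s ≤ t) : slab a s ⊆ slab a t :=
  fun _ hx => ⟨hx.1, hx.2.trans h⟩

theorem v_mono {n : ℕ} (a : Fin n → ℝ) {s t : ℝ} (h : s ≤ t) : v a s ≤ v a t :=
  ENNReal.toReal_mono (slab_volume_ne_top a t) (measure_mono (slab_mono a h))

theorem clamp_diff_ge (s d x : ℝ) (hs : 0 ≤ s) (hd : 0 ≤ d) :
    (if |x| ≤ s then 2 * d else 0) ≤ clamp (s + d) (d + x) - clamp (s + d) (-d + x) := by
  unfold clamp
  split_ifs with h
  · rw [abs_le] at h
    simp only [max_def, min_def]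
    split_ifs <;> linarith
  · simp only [max_def, min_def]
    split_ifs <;> linarith

theorem meas_le {n : ℕ} (a : Fin n → ℝ) (s : ℝ) :
    MeasurableSet {x : Fin n → ℝ | |∑ i, a i * x i| ≤ s} := by
  apply IsClosed.measurableSet
  exact isClosed_le (by fun_prop) continuous_const

/-- upper bound for the volume of a slab through the clamped average -/
theorem slab_upper {n : ℕ} (a : Fin n → ℝ) (s d : ℝ) (hs : 0 ≤ s) (hd : 0 ≤ d) :
    d * v a s ≤ 2 ^ n * cubeAvg a (clamp (s + d)) d := by
  have hc := clamp_continuous (s + d)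
  have h1 : 2 ^ n * cubeAvg a (clamp (s + d)) d = (1 / 2) * ∫ x in cube n,
      (clamp (s + d) (d + ∑ i, a i * x i) - clamp (s + d) (-d + ∑ i, a i * x i)) := by
    have h2 : cubeAvg a (clamp (s + d)) d = (1 / 2) *
        (cubeAvg a (clamp (s + d)) d - cubeAvg a (clamp (s + d)) (-d)) := by
      rw [cubeAvg_odd a hc (clamp_odd (s + d) (add_nonneg hs hd))]
      ring
    rw [h2, integral_sub (integrableOn_cube (by fun_prop)) (integrableOn_cube (by fun_prop))]
    unfold cubeAvg
    field_simp
  rw [h1]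
  have hmeas := meas_le a s
  have h3 : ∫ x in cube n, ({x : Fin n → ℝ | |∑ i, a i * x i| ≤ s}.indicator (fun _ => 2 * d)) x
      ≤ ∫ x in cube n,
        (clamp (s + d) (d + ∑ i, a i * x i) - clamp (s + d) (-d + ∑ i, a i * x i)) := by
    apply MeasureTheory.integral_mono
    · apply Integrable.indicator _ hmeas
      exact integrableOn_cube continuous_const
    · exact integrableOn_cube (by fun_prop)
    · intro x
      have := clamp_diff_ge s d (∑ i, a i * x i) hs hd
      simpa [Set.indicator_apply] using this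
  rw [MeasureTheory.integral_indicator hmeas, Measure.restrict_restrict hmeas, ← slab_eq] at h3
  simp only [MeasureTheory.integral_const, smul_eq_mul, Measure.real,
    Measure.restrict_apply_univ] at h3
  unfold v
  nlinarith [h3]

theorem clamp_pos {s x : ℝ} (hs : 0 ≤ s) (hx : 0 ≤ x) : clamp s x = min x s := by
  unfold clamp
  rw [max_eq_right]
  have := le_min hx hs
  linarith

theorem conc0 {n : ℕ} (a : Fin n → ℝ) {s t r d : ℝ} (hs : 0 ≤ s) (hst : s ≤ t) (htr : t ≤ r)
    (hd : 0 < d) : (t - s) * v a r + (r - t) * v a s ≤ (r - s) * v a (t + d + d) := by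
  have c1 := clamp_continuous (r + d)
  have c2 := clamp_continuous (s + d)
  have c3 := clamp_continuous (t + d)
  have hr : 0 ≤ r := hs.trans (hst.trans htr)
  have ht : 0 ≤ t := hs.trans hst
  have h := cubeAvg_le a
    (f := fun x => (t - s) * clamp (r + d) x + (r - t) * clamp (s + d) x)
    (g := fun x => (r - s) * clamp (t + d) x) (by fun_prop) (by fun_prop)
    (by
      intro x
      rw [clamp_odd _ (by linarith), clamp_odd _ (by linarith)]
      ring)
    (by
      intro x
      rw [clamp_odd _ (by linarith)]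
      ring)
    (by
      intro x hx
      rw [clamp_pos (by linarith) hx, clamp_pos (by linarith) hx, clamp_pos (by linarith) hx]
      rcases le_total x (t + d) with h | h
      · rw [min_eq_left h]
        have e1 := mul_le_mul_of_nonneg_left (min_le_left x (r + d)) (sub_nonneg.2 hst)
        have e2 := mul_le_mul_of_nonneg_left (min_le_left x (s + d)) (sub_nonneg.2 htr)
        linarith
      · rw [min_eq_right h]
        have e1 := mul_le_mul_of_nonneg_left (min_le_right x (r + d)) (sub_nonneg.2 hst)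
        have e2 := mul_le_mul_of_nonneg_left (min_le_right x (s + d)) (sub_nonneg.2 htr)
        linarith) d hd.le
  rw [cubeAvg_add a (by fun_prop) (by fun_prop), cubeAvg_const_mul, cubeAvg_const_mul,
    cubeAvg_const_mul] at h
  have u1 := slab_upper a r d hr hd.le
  have u2 := slab_upper a s d hs hd.le
  have l := slab_lower a (t + d) d (by linarith) hd.le
  have m1 := mul_le_mul_of_nonneg_left u1 (sub_nonneg.2 hst)
  have m2 := mul_le_mul_of_nonneg_left u2 (sub_nonneg.2 htr)
  have m3 := mul_le_mul_of_nonneg_left l (sub_nonneg.2 (hst.trans htr))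
  have m4 := mul_le_mul_of_nonneg_left h (by positivity : (0 : ℝ) ≤ 2 ^ n)
  have k : d * ((t - s) * v a r + (r - t) * v a s) ≤ d * ((r - s) * v a (t + d + d)) := by
    unfold v at *
    linarith
  exact le_of_mul_le_mul_left k hd

theorem v_tendsto {n : ℕ} (a : Fin n → ℝ) (t : ℝ) : Tendsto (v a) (𝓝[>] t) (𝓝 (v a t)) := by
  have h := tendsto_measure_biInter_gt (μ := (volume : Measure (Fin n → ℝ))) (s := slab a) (a := t)
    (fun r _ => by
      rw [slab_eq]
      exact ((meas_le a r).inter measurableSet_Icc).nullMeasurableSet)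
    (fun i j _ hij => slab_mono a hij) ⟨t + 1, by simp, slab_volume_ne_top a _⟩
  have e : (⋂ r > t, slab a r) = slab a t := by
    apply Set.Subset.antisymm
    · intro x hx
      simp only [mem_iInter] at hx
      refine ⟨(hx (t + 1) (by linarith)).1, ?_⟩
      refine le_of_forall_gt_imp_ge_of_dense fun r hr => ?_
      exact (hx r hr).2
    · intro x hx
      simp only [mem_iInter]
      exact fun r hr => slab_mono a (le_of_lt hr) hx
  rw [e] at h
  exact (ENNReal.tendsto_toReal (slab_volume_ne_top a t)).comp h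

/-- Concavity. -/
theorem conc {n : ℕ} (a : Fin n → ℝ) {s t r : ℝ} (hs : 0 ≤ s) (hst : s ≤ t) (htr : t ≤ r) :
    (t - s) * v a r + (r - t) * v a s ≤ (r - s) * v a t := by
  have h := (v_tendsto a t).const_mul (r - s)
  refine ge_of_tendsto h ?_
  filter_upwards [self_mem_nhdsWithin] with u hu
  have hu' : t < u := hu
  have := conc0 a hs hst htr (d := (u - t) / 2) (by linarith)
  have e : t + (u - t) / 2 + (u - t) / 2 = u := by ring
  rwa [e] at this

/-! ### The layer cake formula -/

theorem meas2 {n : ℕ} (a : Fin n → ℝ) :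
    MeasurableSet {p : (Fin n → ℝ) × ℝ | |∑ i, a i * p.1 i| ≤ p.2} := by
  apply IsClosed.measurableSet
  exact isClosed_le (by fun_prop) (by fun_prop)

theorem intg {n : ℕ} (a : Fin n → ℝ) (w : ℝ → ℝ) (hw : Continuous w) :
    Integrable (fun p : (Fin n → ℝ) × ℝ => {p : (Fin n → ℝ) × ℝ | |∑ i, a i * p.1 i| ≤ p.2}.indicator
      (fun p => w p.2) p) ((volume.restrict (cube n)).prod (volume.restrict (Icc (0 : ℝ) 1))) := by
  rw [Measure.prod_restrict]
  apply Integrable.indicator _ (meas2 a)
  apply ContinuousOn.integrableOn_compact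
  · exact isCompact_Icc.prod isCompact_Icc
  · exact (by fun_prop : Continuous fun p : (Fin n → ℝ) × ℝ => w p.2).continuousOn

theorem inner1 {n : ℕ} (a : Fin n → ℝ) (w : ℝ → ℝ) (s : ℝ) :
    ∫ x in cube n, {p : (Fin n → ℝ) × ℝ | |∑ i, a i * p.1 i| ≤ p.2}.indicator
      (fun p => w p.2) (x, s) = w s * v a s := by
  have h : ∀ x : Fin n → ℝ, {p : (Fin n → ℝ) × ℝ | |∑ i, a i * p.1 i| ≤ p.2}.indicator
      (fun p => w p.2) (x, s) =
      {x : Fin n → ℝ | |∑ i, a i * x i| ≤ s}.indicator (fun _ => w s) x := by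
    intro x
    simp only [Set.indicator_apply, Set.mem_ofPred_eq]
  simp_rw [h]
  rw [MeasureTheory.integral_indicator (meas_le a s), Measure.restrict_restrict (meas_le a s),
    ← slab_eq]
  simp only [MeasureTheory.integral_const, smul_eq_mul, Measure.real, Measure.restrict_apply_univ]
  unfold v
  ring

theorem inner2 {n : ℕ} (a : Fin n → ℝ) (w : ℝ → ℝ) (x : Fin n → ℝ) :
    ∫ s in Icc (0 : ℝ) 1, {p : (Fin n → ℝ) × ℝ | |∑ i, a i * p.1 i| ≤ p.2}.indicator
      (fun p => w p.2) (x, s) = ∫ s in Icc |∑ i, a i * x i| 1, w s := by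
  have h : ∀ s : ℝ, {p : (Fin n → ℝ) × ℝ | |∑ i, a i * p.1 i| ≤ p.2}.indicator
      (fun p => w p.2) (x, s) = (Ici |∑ i, a i * x i|).indicator w s := by
    intro s
    simp only [Set.indicator_apply, Set.mem_ofPred_eq, mem_Ici]
  simp_rw [h]
  rw [setIntegral_indicator measurableSet_Ici]
  congr 2
  ext s
  simp only [mem_inter_iff, mem_Icc, mem_Ici]
  constructor
  · rintro ⟨⟨_, h2⟩, h3⟩
    exact ⟨h3, h2⟩
  · rintro ⟨h1, h2⟩
    exact ⟨⟨(abs_nonneg _).trans h1, h2⟩, h1⟩

theorem layer {n : ℕ} (a : Fin n → ℝ) (w : ℝ → ℝ) (hw : Continuous w) :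
    ∫ x in cube n, ∫ s in Icc |∑ i, a i * x i| 1, w s = ∫ s in Icc (0 : ℝ) 1, w s * v a s := by
  simp_rw [← inner1, ← inner2 a w]
  exact integral_integral_swap (intg a w hw)

theorem layer_int {n : ℕ} (a : Fin n → ℝ) (w : ℝ → ℝ) (hw : Continuous w) :
    IntegrableOn (fun s => w s * v a s) (Icc (0 : ℝ) 1) := by
  have h := (intg a w hw).integral_prod_right
  simp_rw [inner1] at h
  exact h

theorem layer_le {n : ℕ} (a : Fin n → ℝ) (w : ℝ → ℝ) (hw : Continuous w)
    (hw0 : ∀ s ∈ Icc (0 : ℝ) 1, 0 ≤ w s) {c : ℝ}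
    (hv : ∀ s ∈ Icc (0 : ℝ) 1, v a s ≤ 2 ^ n * (s + c)) :
    ∫ x in cube n, ∫ s in Icc |∑ i, a i * x i| 1, w s ≤
      2 ^ n * ∫ s in Icc (0 : ℝ) 1, w s * (s + c) := by
  rw [layer a w hw, ← MeasureTheory.integral_const_mul]
  apply setIntegral_mono_on (layer_int a w hw)
  · apply ContinuousOn.integrableOn_compact isCompact_Icc
    exact (by fun_prop : Continuous fun s : ℝ => 2 ^ n * (w s * (s + c))).continuousOn
  · exact measurableSet_Icc
  · intro s hs
    have := mul_le_mul_of_nonneg_left (hv s hs) (hw0 s hs)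
    linarith

theorem lay1 (x : ℝ) : ∫ s in Icc |x| 1, 2 * s = max (1 - x ^ 2) 0 := by
  rcases le_total |x| 1 with h | h
  · rw [integral_Icc_eq_integral_Ioc, ← intervalIntegral.integral_of_le h,
      intervalIntegral.integral_const_mul, integral_id]
    have h1 : x ^ 2 ≤ 1 := by
      rw [← sq_abs]
      have := abs_nonneg x
      nlinarith
    rw [max_eq_left (by linarith), sq_abs]
    ring
  · have h1 : 1 ≤ x ^ 2 := by
      rw [← sq_abs]
      nlinarith
    rw [max_eq_right (by linarith)]
    apply setIntegral_measure_zero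
    rw [Real.volume_Icc]
    simpa using h

theorem lay2 (x : ℝ) : ∫ s in Icc |x| 1, (4 * s - 4 * s ^ 3) = max (1 - x ^ 2) 0 ^ 2 := by
  rcases le_total |x| 1 with h | h
  · rw [integral_Icc_eq_integral_Ioc, ← intervalIntegral.integral_of_le h,
      intervalIntegral.integral_sub, intervalIntegral.integral_const_mul, integral_id,
      intervalIntegral.integral_const_mul, integral_pow]
    · have h1 : x ^ 2 ≤ 1 := by
        rw [← sq_abs]
        have := abs_nonneg x
        nlinarith
      rw [max_eq_left (by linarith), sq_abs]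
      have h2 : |x| ^ (3 + 1) = x ^ 4 := by
        have : |x| ^ (3 + 1) = (|x| ^ 2) ^ 2 := by ring
        rw [this, sq_abs]
        ring
      rw [h2]
      push_cast
      ring
    · exact (by fun_prop : Continuous fun s : ℝ => 4 * s).intervalIntegrable _ _
    · exact (by fun_prop : Continuous fun s : ℝ => 4 * s ^ 3).intervalIntegrable _ _
  · have h1 : 1 ≤ x ^ 2 := by
      rw [← sq_abs]
      nlinarith
    rw [max_eq_right (by linarith)]
    rw [setIntegral_measure_zero]
    · ring
    · rw [Real.volume_Icc]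
      simpa using h

theorem val1 (c : ℝ) : ∫ s in Icc (0 : ℝ) 1, 2 * s * (s + c) = 2 / 3 + c := by
  rw [integral_Icc_eq_integral_Ioc, ← intervalIntegral.integral_of_le zero_le_one]
  have h : ∀ s : ℝ, 2 * s * (s + c) = 2 * s ^ 2 + 2 * c * s := by
    intro s
    ring
  simp_rw [h]
  rw [intervalIntegral.integral_add, intervalIntegral.integral_const_mul,
    intervalIntegral.integral_const_mul, integral_pow, integral_id]
  · norm_num
    ring
  · exact (by fun_prop : Continuous fun s : ℝ => 2 * s ^ 2).intervalIntegrable _ _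
  · exact (by fun_prop : Continuous fun s : ℝ => 2 * c * s).intervalIntegrable _ _

theorem val2 (c : ℝ) : ∫ s in Icc (0 : ℝ) 1, (4 * s - 4 * s ^ 3) * (s + c) = 8 / 15 + c := by
  rw [integral_Icc_eq_integral_Ioc, ← intervalIntegral.integral_of_le zero_le_one]
  have h : ∀ s : ℝ, (4 * s - 4 * s ^ 3) * (s + c) =
      (4 * s ^ 2 + 4 * c * s) - (4 * s ^ 4 + 4 * c * s ^ 3) := by
    intro s
    ring
  simp_rw [h]
  rw [intervalIntegral.integral_sub, intervalIntegral.integral_add, intervalIntegral.integral_add,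
    intervalIntegral.integral_const_mul, intervalIntegral.integral_const_mul,
    intervalIntegral.integral_const_mul, intervalIntegral.integral_const_mul, integral_pow,
    integral_id, integral_pow, integral_pow]
  · norm_num
    ring
  all_goals (apply Continuous.intervalIntegrable; fun_prop)

theorem phi1_le {n : ℕ} (a : Fin n → ℝ) {c : ℝ}
    (hv : ∀ s ∈ Icc (0 : ℝ) 1, v a s ≤ 2 ^ n * (s + c)) :
    cubeAvg a (fun x => max (1 - x ^ 2) 0) 0 ≤ 2 / 3 + c := by
  have h := layer_le a (fun s => 2 * s) (by fun_prop) (fun s hs => by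
    have := hs.1
    positivity) hv
  simp_rw [lay1] at h
  rw [val1] at h
  unfold cubeAvg
  simp only [zero_add]
  have e := mul_le_mul_of_nonneg_left h (by positivity : (0 : ℝ) ≤ 1 / 2 ^ n)
  refine e.trans (le_of_eq ?_)
  field_simp

theorem phi2_le {n : ℕ} (a : Fin n → ℝ) {c : ℝ}
    (hv : ∀ s ∈ Icc (0 : ℝ) 1, v a s ≤ 2 ^ n * (s + c)) :
    cubeAvg a (fun x => max (1 - x ^ 2) 0 ^ 2) 0 ≤ 8 / 15 + c := by
  have h := layer_le a (fun s => 4 * s - 4 * s ^ 3) (by fun_prop) (fun s hs => by
    have h1 := hs.1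
    have h2 := hs.2
    have h3 : 4 * s - 4 * s ^ 3 = 4 * s * ((1 - s) * (1 + s)) := by ring
    show 0 ≤ 4 * s - 4 * s ^ 3
    rw [h3]
    exact mul_nonneg (by linarith) (mul_nonneg (by linarith) (by linarith))) hv
  simp_rw [lay2] at h
  rw [val2] at h
  unfold cubeAvg
  simp only [zero_add]
  have e := mul_le_mul_of_nonneg_left h (by positivity : (0 : ℝ) ≤ 1 / 2 ^ n)
  refine e.trans (le_of_eq ?_)
  field_simp

end Pool.Agent.Y391.SL
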